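import Pool.Agent.Helper985.Pol.M_upto_four

/-!
# Monotonicity of the one-electron energy for at most four nuclei

For at most four nuclei in `ℝ³` the ground-state energy does not decrease when all pairwise
distances are weakly increased. No continuous expansion is assumed.
-/

set_option autoImplicit false

open MeasureTheory

namespace Pool.Agent.Results.MP_bcd61f_mp.FourNuclei

/-- For `K ≤ 4` nuclei with positive charges `z j` and radial nonincreasing locally integrable
functions `w j` on `ℝ³` (possibly all equal), the variational ground-state energy of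
`-Δ - ∑ z j * w j (x - R j)` does not decrease when all distances between the nuclei are weakly
increased. -/
theorem result :
  ∀ (K : ℕ), K ≤ 4 → ∀ (z : Fin K → ℝ) (w : Fin K → EuclideanSpace ℝ (Fin 3) → ℝ),
    (∀ j, 0 < z j) →
    (∀ j, MeasureTheory.LocallyIntegrable (w j)) →
    (∀ j, ∀ x y : EuclideanSpace ℝ (Fin 3), ‖x‖ = ‖y‖ → w j x = w j y) →
    (∀ j, ∀ x y : EuclideanSpace ℝ (Fin 3), x ≠ 0 → ‖x‖ ≤ ‖y‖ → w j y ≤ w j x) →
    ∀ R R' : Fin K → EuclideanSpace ℝ (Fin 3),
      (∀ i j, dist (R i) (R j) ≤ dist (R' i) (R' j)) →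
      (⨅ (φ : EuclideanSpace ℝ (Fin 3) → ℝ)
          (_ : ContDiff ℝ 1 φ ∧ HasCompactSupport φ ∧ ∫ x, φ x ^ 2 = 1),
          ((((∫ x, ‖fderiv ℝ φ x‖ ^ 2) -
              ∫ x, (∑ j, z j * w j (x - R j)) * φ x ^ 2 : ℝ)) : EReal))
      ≤
      (⨅ (φ : EuclideanSpace ℝ (Fin 3) → ℝ)
          (_ : ContDiff ℝ 1 φ ∧ HasCompactSupport φ ∧ ∫ x, φ x ^ 2 = 1),
          ((((∫ x, ‖fderiv ℝ φ x‖ ^ 2) -
              ∫ x, (∑ j, z j * w j (x - R' j)) * φ x ^ 2 : ℝ)) : EReal)) := by
  intro K hK z w hz hli hrad hmono R R' h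
  have hW : ∀ j, Pool.Agent.Helper985.Pol.Rad (fun x => z j * w j x) := by
    intro j
    refine ⟨?_, ?_, ?_⟩
    · exact (hli j).smul (z j)
    · intro x y hxy
      change z j * w j x = z j * w j y
      rw [hrad j x y hxy]
    · intro x y hx hxy
      exact mul_le_mul_of_nonneg_left (hmono j x y hx hxy) (hz j).le
  exact Pool.Agent.Helper985.Pol.upto_four K hK (fun j x => z j * w j x) hW R R' h

end Pool.Agent.Results.MP_bcd61f_mp.FourNuclei
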